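import Pool.Agent.E8helper15.FT.Stm

/-! Project FT, piece HT. -/

set_option autoImplicit false

namespace Pool.Agent.E8helper71.FT

open Pool.Agent.E8helper15.FT
open Height

theorem t_HT : S_HT := by
  intro K _ _
  set D : ℝ := (totalWeight K : ℝ) * Real.log 2 with hD
  have hD0 : 0 ≤ D := by
    have : 0 ≤ Real.log 2 := Real.log_nonneg (by norm_num)
    positivity
  have h20 : 0 ≤ logHeight₁ (2 : K) := zero_le_logHeight₁ _
  have h170 : 0 ≤ logHeight₁ (1728 : K) := zero_le_logHeight₁ _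
  have h2K : (2 : K) ≠ 0 := two_ne_zero
  refine ⟨3 * D + 2 * logHeight₁ (2 : K) + logHeight₁ (1728 : K), fun l => ?_⟩
  have hone : logHeight₁ (1 : K) = 0 := logHeight₁_one
  -- `1 - x`
  have h1 : ∀ x : K, logHeight₁ (1 - x) ≤ D + logHeight₁ x := fun x => by
    have := logHeight₁_sub_le (1 : K) x
    rw [hone, add_zero] at this
    exact this
  have e1 : (1 - 2 * l) ^ 2 = 1 - logi l := by
    unfold logi
    ring
  have e2 : 2 * logHeight₁ (1 - 2 * l) ≤ D + logHeight₁ (logi l) := by
    have h3 := logHeight₁_pow (1 - 2 * l) 2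
    rw [e1] at h3
    have h4 := h1 (logi l)
    rw [h3] at h4
    exact_mod_cast h4
  have e3 : logHeight₁ l ≤ D + logHeight₁ (1 - 2 * l) + logHeight₁ (2 : K) := by
    have h3 : l = (1 - (1 - 2 * l)) * (2 : K)⁻¹ := by
      field_simp
      ring
    have h4 := logHeight₁_mul_le (1 - (1 - 2 * l)) ((2 : K)⁻¹)
    rw [← h3, logHeight₁_inv] at h4
    have h5 := h1 (1 - 2 * l)
    linarith
  refine ⟨by linarith, ?_, ?_, ?_⟩
  · have h3 := h1 (2 * l)
    have h4 := logHeight₁_mul_le (2 : K) l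
    linarith
  · have h3 := h1 l
    linarith
  · have h4 := logHeight₁_mul_le (1728 : K) l
    linarith

end Pool.Agent.E8helper71.FT
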